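import Mathlib

namespace Pool.Agent.Results.MP_94c5d9_co.Sqrt

open Finset

/-- Number of satisfying assignments of the DNF whose `i`-th term is the set of literals `T i`;
the literal `(v, true)` is `x_v` and `(v, false)` is its negation. -/
def dnfCount {n m : ℕ} (T : Fin m → Finset (Fin n × Bool)) : ℕ :=
  (univ.filter (fun x : Fin n → Bool => ∃ i, ∀ l ∈ T i, x l.1 = l.2)).card

/-- Number of satisfying assignments of the CNF whose `i`-th clause is `T i`. -/
def cnfCount {n m : ℕ} (T : Fin m → Finset (Fin n × Bool)) : ℕ :=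
  (univ.filter (fun x : Fin n → Bool => ∀ i, ∃ l ∈ T i, x l.1 = l.2)).card

/-- Some DNF with `m` terms or CNF with `m` clauses has exactly `k` satisfying assignments. -/
def HasF (k m : ℕ) : Prop :=
  ∃ (n : ℕ) (T : Fin m → Finset (Fin n × Bool)), dnfCount T = k ∨ cnfCount T = k

/-- The number of maximal runs of ones in the binary expansion: a run is counted at its highest
digit, a digit `1` whose next higher digit is `0`. -/
def bl : ℕ → ℕ
  | 0 => 0
  | k + 1 => bl ((k + 1) / 2) + if (k + 1) % 4 = 1 then 1 else 0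

variable {n m : ℕ}

def S (L : Finset (Fin n × Bool)) : Finset (Fin n → Bool) :=
  univ.filter (fun x => ∀ l ∈ L, x l.1 = l.2)

def vs (L : Finset (Fin n × Bool)) : Finset (Fin n) := L.image Prod.fst

lemma vs_le (L : Finset (Fin n × Bool)) : (vs L).card ≤ n := by
  simpa using card_le_univ (vs L)

lemma card_S (L : Finset (Fin n × Bool)) (h : (S L).Nonempty) :
    (S L).card = 2 ^ (n - (vs L).card) := by
  obtain ⟨x0, h0⟩ := h
  have h0' : ∀ l ∈ L, x0 l.1 = l.2 := by simpa [S] using h0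
  have : S L = Fintype.piFinset (fun v => if v ∈ vs L then {x0 v} else univ) := by
    ext x
    simp only [S, mem_filter, mem_univ, true_and, Fintype.mem_piFinset]
    constructor
    · intro hx v
      split_ifs with hv
      · obtain ⟨l, hl, rfl⟩ := mem_image.1 hv
        rw [mem_singleton, hx l hl, h0' l hl]
      · exact mem_univ _
    · intro hx l hl
      have := hx l.1
      rw [if_pos (show l.1 ∈ vs L from mem_image_of_mem _ hl), mem_singleton] at this
      rw [this, h0' l hl]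
  rw [this, Fintype.card_piFinset]
  have : ∀ v, (if v ∈ vs L then ({x0 v} : Finset Bool) else univ).card =
      if v ∈ (vs L)ᶜ then 2 else 1 := by
    intro v
    by_cases hv : v ∈ vs L <;> simp [hv]
  simp only [this]
  rw [prod_ite_mem, univ_inter, prod_const, card_compl, Fintype.card_fin]

lemma inf_S (T : Fin m → Finset (Fin n × Bool)) (t : Finset (Fin m)) :
    t.inf (fun i => S (T i)) = S (t.biUnion T) := by
  ext x
  simp only [Finset.mem_inf, S, mem_filter, mem_univ, true_and, mem_biUnion]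
  exact ⟨fun h l ⟨i, hi, hl⟩ => h i hi l hl, fun h i hi l hl => h l ⟨i, hi, hl⟩⟩

lemma near {ι : Type} (J : Finset ι) (v : ι → ℤ) (e : ι → ℕ) (m x : ℕ) (o r : ℤ)
    (hv : ∀ t ∈ J, v t = 0 ∨ |v t| = 2 ^ e t) (hJ : J.card ≤ 2 ^ m)
    (hs : ∑ t ∈ J, v t = 2 ^ x * (2 * o + 1) + r) (r0 : 0 ≤ r) (r1 : 2 * r < 2 ^ x) :
    ∃ t ∈ J, v t ≠ 0 ∧ e t ≤ x ∧ x ≤ e t + m + 1 := by
  by_contra hne
  push Not at hne
  rw [← sum_filter_add_sum_filter_not J (fun t => x < e t)] at hs
  have h1 : (2 : ℤ) ^ (x + 1) ∣ ∑ t ∈ J.filter (fun t => x < e t), v t := by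
    refine dvd_sum fun t ht => ?_
    obtain ⟨a, b⟩ := mem_filter.1 ht
    rcases hv t a with h | h
    · simp [h]
    · rw [← dvd_abs, h]
      exact pow_dvd_pow _ b
  have h2 : 2 ^ (m + 2) * |∑ t ∈ J.filter (fun t => ¬ x < e t), v t| ≤ 2 ^ m * 2 ^ x := by
    calc 2 ^ (m + 2) * |∑ t ∈ J.filter (fun t => ¬ x < e t), v t|
        ≤ 2 ^ (m + 2) * ∑ t ∈ J.filter (fun t => ¬ x < e t), |v t| :=
          mul_le_mul_of_nonneg_left (abs_sum_le_sum_abs _ _) (by positivity)
      _ = ∑ t ∈ J.filter (fun t => ¬ x < e t), 2 ^ (m + 2) * |v t| := mul_sum _ _ _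
      _ ≤ (J.filter (fun t => ¬ x < e t)).card • (2 : ℤ) ^ x := by
          refine sum_le_card_nsmul _ _ _ fun t ht => ?_
          obtain ⟨a, b⟩ := mem_filter.1 ht
          by_cases h0 : v t = 0
          · simp [h0]
          · rw [(hv t a).resolve_left h0, ← pow_add]
            have := hne t a h0 (by omega)
            exact pow_le_pow_right₀ (by norm_num) (by omega)
      _ ≤ 2 ^ m * 2 ^ x := by
          rw [nsmul_eq_mul]
          refine mul_le_mul_of_nonneg_right ?_ (by positivity)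
          exact_mod_cast (card_filter_le _ _).trans hJ
  obtain ⟨a, ha⟩ := h1
  rw [ha, pow_succ] at hs
  generalize ∑ t ∈ J.filter (fun t => ¬ x < e t), v t = R at hs h2
  have h3 : 4 * |R| ≤ 2 ^ x := by
    have hp : (0 : ℤ) < 2 ^ m := by positivity
    rw [pow_add, mul_assoc] at h2
    have := le_of_mul_le_mul_left h2 hp
    linarith
  have hP : (0 : ℤ) < 2 ^ x := by positivity
  generalize (2 : ℤ) ^ x = P at *
  have h4 := le_abs_self R
  have h5 := neg_abs_le R
  rcases le_or_gt a o with h | h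
  · have : P * 0 ≤ P * (o - a) := mul_le_mul_of_nonneg_left (by omega) hP.le
    nlinarith
  · have : P * 1 ≤ P * (a - o) := mul_le_mul_of_nonneg_left (by omega) hP.le
    nlinarith

def y (B : ℕ) : ℕ → ℕ
  | 0 => 0
  | j + 1 => (B + 2) * (y B j + 2 * B + 2)

lemma y_step (B j : ℕ) : y B j + 2 ≤ y B (j + 1) := by
  rw [y]; nlinarith [Nat.zero_le (y B j), Nat.zero_le B]

lemma y_mono (B : ℕ) : Monotone (y B) :=
  monotone_nat_of_le_succ fun j => le_trans (by omega) (y_step B j)

def K (B : ℕ) : ℕ → ℕ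
  | 0 => 1
  | j + 1 => 2 ^ (y B (j + 1) - y B j) * K B j + 1

lemma bl_mul (g k : ℕ) (hk : 0 < k) : bl (2 ^ g * k) = bl k := by
  induction g with
  | zero => simp
  | succ g ih =>
    obtain ⟨u, hu⟩ : ∃ u, 2 ^ (g + 1) * k = u + 1 := ⟨_, (Nat.succ_pred_eq_of_pos (by positivity)).symm⟩
    rw [hu, bl, ← hu, pow_succ', mul_assoc, if_neg (by omega), Nat.mul_div_cancel_left _ two_pos, ih]
    rfl

lemma K_spec (B : ℕ) : ∀ b, 0 < K B b ∧ bl (K B b) = b + 1 ∧ K B b % 2 = 1
  | 0 => by simp [K, bl]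
  | b + 1 => by
    obtain ⟨h1, h2, _⟩ := K_spec B b
    obtain ⟨g, hg⟩ : ∃ g, y B (b + 1) - y B b = g + 2 := ⟨y B (b + 1) - y B b - 2, by
      have := y_step B b; omega⟩
    have e : 2 ^ (g + 2) * K B b = 4 * (2 ^ g * K B b) := by ring
    have e2 : 2 ^ (g + 1) * K B b = 2 * (2 ^ g * K B b) := by ring
    refine ⟨by simp [K], ?_, ?_⟩
    · rw [K, hg, bl, if_pos (by omega), show (2 ^ (g + 2) * K B b + 1) / 2 = 2 ^ (g + 1) * K B b by
        omega, bl_mul _ _ h1, h2]
    · rw [K, hg]; omega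

lemma K_form (B j : ℕ) : ∀ d, ∃ r, K B (j + d) = 2 ^ (y B (j + d) - y B j) * K B j + r ∧
    2 * r < 2 ^ (y B (j + d) - y B j)
  | 0 => ⟨0, by simp, by simp⟩
  | d + 1 => by
    obtain ⟨r, h1, h2⟩ := K_form B j d
    have a1 := y_step B (j + d)
    have a2 : y B j ≤ y B (j + d) := y_mono B (by omega)
    obtain ⟨g, hg⟩ : ∃ g, y B (j + d + 1) - y B (j + d) = g + 2 := ⟨y B (j + d + 1) - y B (j + d) - 2,
      by omega⟩
    have e : y B (j + (d + 1)) - y B j = (g + 2) + (y B (j + d) - y B j) := by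
      rw [← add_assoc]; omega
    refine ⟨2 ^ (g + 2) * r + 1, ?_, ?_⟩
    · rw [e, ← add_assoc, K, hg, h1]; ring
    · rw [e, pow_add 2 (g + 2)]
      have : 4 ≤ 2 ^ (g + 2) := by rw [pow_add]; have := Nat.one_le_two_pow (n := g); omega
      nlinarith

def f (T : Fin m → Finset (Fin n × Bool)) (t : Finset (Fin m)) : ℕ := (vs (t.biUnion T)).card

lemma f_mono (T : Fin m → Finset (Fin n × Bool)) {s t : Finset (Fin m)} (h : s ⊆ t) :
    f T s ≤ f T t := card_le_card (image_subset_image (biUnion_subset_biUnion_of_subset_left T h))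

lemma comb (T : Fin m → Finset (Fin n × Bool)) (c b : ℕ)
    (hc : ∀ i, (S (T i)).Nonempty → c ≤ f T {i})
    (H : ∀ j ≤ b, 1 ≤ j → ∃ t : Finset (Fin m), t.Nonempty ∧ (S (t.biUnion T)).Nonempty ∧
      c + y b j ≤ f T t ∧ f T t ≤ c + y b j + 2 * m + 1) : b ≤ m ^ 2 := by
  by_contra hb
  have hm : m ≤ b := by nlinarith
  have key : ∀ j ∈ Icc 1 b, ∃ p : Fin m × Fin m, c ≤ f T {p.1} ∧ f T {p.1} ≤ f T {p.1, p.2} ∧
      f T {p.1, p.2} ≤ c + y b j + 2 * m + 1 ∧
      c + y b j ≤ f T {p.1} + m * (f T {p.1, p.2} - f T {p.1}) := by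
    intro j hj
    obtain ⟨t, ⟨i0, hi0⟩, ⟨x, hx⟩, h1, h2⟩ := H j (mem_Icc.1 hj).2 (mem_Icc.1 hj).1
    obtain ⟨i, hi, hmax⟩ := exists_max_image t (fun i => f T {i0, i}) ⟨i0, hi0⟩
    refine ⟨(i0, i), hc i0 ⟨x, ?_⟩, f_mono T (by simp), le_trans (f_mono T ?_) h2, h1.trans ?_⟩
    · simp only [S, mem_filter, mem_univ, true_and, mem_biUnion] at hx ⊢
      exact fun l hl => hx l ⟨i0, hi0, hl⟩
    · intro a ha
      simp only [mem_insert, mem_singleton] at ha
      rcases ha with rfl | rfl <;> assumption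
    · have hsub : vs (t.biUnion T) ⊆ vs (({i0} : Finset (Fin m)).biUnion T) ∪
          t.biUnion (fun a => vs (({i0, a} : Finset (Fin m)).biUnion T) \
            vs (({i0} : Finset (Fin m)).biUnion T)) := by
        intro v hv
        by_cases h0 : v ∈ vs (({i0} : Finset (Fin m)).biUnion T)
        · exact mem_union_left _ h0
        · obtain ⟨l, hl, rfl⟩ := mem_image.1 hv
          obtain ⟨a, ha, hl⟩ := mem_biUnion.1 hl
          exact mem_union_right _ (mem_biUnion.2 ⟨a, ha, mem_sdiff.2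
            ⟨mem_image_of_mem _ (mem_biUnion.2 ⟨a, by simp, hl⟩), h0⟩⟩)
      refine (card_le_card hsub).trans ((card_union_le _ _).trans (Nat.add_le_add_left ?_ _))
      refine card_biUnion_le.trans ((sum_le_card_nsmul _ _ (f T {i0, i} - f T {i0})
        fun a ha => ?_).trans ?_)
      · have hs2 : vs (({i0} : Finset (Fin m)).biUnion T) ⊆
            vs (({i0, a} : Finset (Fin m)).biUnion T) :=
          image_subset_image (biUnion_subset_biUnion_of_subset_left T (by simp))
        rw [card_sdiff_of_subset hs2]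
        exact Nat.sub_le_sub_right (hmax a ha) _
      · rw [smul_eq_mul]
        exact Nat.mul_le_mul_right _ (by simpa using card_le_univ t)
  haveI : Nonempty (Fin m × Fin m) := by
    obtain ⟨p, _⟩ := key 1 (mem_Icc.2 ⟨le_rfl, by omega⟩)
    exact ⟨p⟩
  choose! p hp using key
  have main : ∀ j ∈ Icc 1 b, ∀ j' ∈ Icc 1 b, j < j' → p j ≠ p j' := by
    intro j hj j' hj' hlt e
    obtain ⟨a1, a2, a3, _⟩ := hp j hj
    obtain ⟨_, _, _, a4⟩ := hp j' hj'
    rw [← e] at a4
    have a5 : y b (j + 1) ≤ y b j' := y_mono b hlt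
    rw [y] at a5
    obtain ⟨u, hu⟩ := Nat.exists_eq_add_of_le a1
    obtain ⟨w, hw⟩ := Nat.exists_eq_add_of_le a2
    rw [hw, Nat.add_sub_cancel_left, hu] at a4
    rw [hw, hu] at a3
    have a6 : m * w ≤ m * (y b j + 2 * m + 1) := Nat.mul_le_mul_left _ (by omega)
    have a7 : (m + 2) * (y b j + 2 * m + 2) ≤ (b + 2) * (y b j + 2 * b + 2) :=
      Nat.mul_le_mul (by omega) (by omega)
    nlinarith
  obtain ⟨j, hj, j', hj', hne, e⟩ := exists_ne_map_eq_of_card_lt_of_maps_to
    (s := Icc 1 b) (t := univ) (f := p) (by simp; nlinarith) (fun _ _ => mem_univ _)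
  rcases lt_or_gt_of_ne hne with h | h
  · exact main j hj j' hj' h e
  · exact main j' hj' j hj h e.symm

lemma ie (T : Fin m → Finset (Fin n × Bool)) (J : Finset (Finset (Fin m))) (s : ℤ) (hs : |s| = 1)
    (b : ℕ) (hk : ∑ t ∈ J, s * ((-1) ^ t.card * ((S (t.biUnion T)).card : ℤ)) = K b b) (j : ℕ)
    (hj : j ≤ b) : ∃ t ∈ J, (S (t.biUnion T)).Nonempty ∧ n - f T t ≤ y b b - y b j ∧
      y b b - y b j ≤ n - f T t + m + 1 := by
  obtain ⟨r, h1, h2⟩ := K_form b j (b - j)
  rw [show j + (b - j) = b by omega] at h1 h2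
  have h3 := (K_spec b j).2.2
  obtain ⟨t, ht, a, c⟩ := near J (fun t => s * ((-1) ^ t.card * ((S (t.biUnion T)).card : ℤ)))
    (fun t => n - f T t) m (y b b - y b j) ((K b j / 2 : ℕ) : ℤ) r (fun t _ => by
      rcases (S (t.biUnion T)).eq_empty_or_nonempty with h | h
      · left; simp [h]
      · right; rw [card_S _ h]; simp [abs_mul, hs, f])
    (by simpa using card_le_univ J) (by
      rw [hk, h1, show K b j = 2 * (K b j / 2) + 1 by omega]
      push_cast
      rw [show (2 * ((K b j : ℤ) / 2) + 1) / 2 = (K b j : ℤ) / 2 by omega])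
    (by positivity) (by exact_mod_cast h2)
  refine ⟨t, ht, nonempty_iff_ne_empty.2 fun h => a (by simp [h]), c⟩

lemma lower (b m : ℕ) (h : HasF (K b b) m) : b ≤ m ^ 2 := by
  obtain ⟨n, T, h⟩ := h
  obtain ⟨r, h1, h2⟩ := K_form b 0 b
  simp only [zero_add, y, K, mul_one, tsub_zero] at h1 h2
  have hlt : K b b < 2 ^ (y b b + 1) := by rw [pow_succ]; omega
  rcases h with h | h
  · have e := inclusion_exclusion_card_inf_compl univ (fun i => S (T i))
    simp only [inf_S] at e
    have e1 : (univ.inf fun i => (S (T i))ᶜ) =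
        (univ.filter (fun x : Fin n → Bool => ∃ i, ∀ l ∈ T i, x l.1 = l.2))ᶜ := by
      ext x
      simp [Finset.mem_inf, S]
    have e2 : (S ((∅ : Finset (Fin m)).biUnion T)) = univ := by simp [S]
    have hle : K b b ≤ Fintype.card (Fin n → Bool) := h ▸ card_le_univ _
    rw [e1, card_compl, ← add_sum_erase _ _ (empty_mem_powerset _), e2] at e
    unfold dnfCount at h
    rw [h, Nat.cast_sub hle] at e
    have hX : y b b ≤ n := by
      have : 2 ^ y b b ≤ 2 ^ n := by simp at hle; omega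
      exact (Nat.pow_le_pow_iff_right (by norm_num)).1 this
    refine comb T (n - y b b) b (fun i hi => ?_) (fun j hj _ => ?_)
    · have : (S (T i)).card ≤ K b b := h ▸ card_le_card (fun x hx => by
        simp only [S, mem_filter, mem_univ, true_and] at hx ⊢
        exact ⟨i, hx⟩)
      rw [card_S _ hi] at this
      have := (Nat.pow_lt_pow_iff_right (by norm_num)).1 (this.trans_lt hlt)
      simp only [f, singleton_biUnion]
      omega
    · obtain ⟨t, ht, a1, a2, a3⟩ := ie T ((powerset univ).erase ∅) (-1) (by simp) b (by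
        rw [← mul_sum]
        simp only [card_empty, pow_zero, one_mul, card_univ] at e
        linarith) j hj
      have := vs_le (t.biUnion T)
      have := y_mono b hj
      refine ⟨t, nonempty_iff_ne_empty.2 (mem_erase.1 ht).1, a1, ?_, ?_⟩ <;> unfold f at * <;> omega
  · let T' : Fin m → Finset (Fin n × Bool) := fun i => (T i).image (fun l => (l.1, !l.2))
    have e := inclusion_exclusion_card_inf_compl univ (fun i => S (T' i))
    simp only [inf_S] at e
    have e1 : (univ.inf fun i => (S (T' i))ᶜ) =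
        univ.filter (fun x : Fin n → Bool => ∀ i, ∃ l ∈ T i, x l.1 = l.2) := by
      ext x
      simp only [Finset.mem_inf, S, T', mem_compl, mem_filter, mem_univ, true_and, forall_mem_image,
        not_forall, forall_const]
      refine forall_congr' fun i => ⟨fun ⟨l, hl, hx⟩ => ⟨l, hl, ?_⟩, fun ⟨l, hl, hx⟩ => ⟨l, hl, ?_⟩⟩
      · revert hx; cases x l.1 <;> cases l.2 <;> simp
      · rw [hx]; cases l.2 <;> simp
    unfold cnfCount at h
    rw [e1, h] at e
    have hle : K b b ≤ Fintype.card (Fin n → Bool) := h ▸ card_le_univ _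
    have hX : y b b ≤ n := by
      have : 2 ^ y b b ≤ 2 ^ n := by simp at hle; omega
      exact (Nat.pow_le_pow_iff_right (by norm_num)).1 this
    have hn : n ≤ y b b + m := by
      obtain ⟨x0, hx0⟩ := card_pos.1 (h ▸ (K_spec b b).1)
      simp only [mem_filter, mem_univ, true_and] at hx0
      choose l hl hl' using hx0
      have a1 : (S (univ.image l)).card ≤ K b b := h ▸ card_le_card (fun x hx => by
        simp only [S, mem_filter, mem_univ, true_and, forall_mem_image] at hx ⊢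
        exact fun i => ⟨l i, hl i, hx trivial⟩)
      rw [card_S _ ⟨x0, by simpa [S] using hl'⟩] at a1
      have a2 := (Nat.pow_lt_pow_iff_right (by norm_num)).1 (a1.trans_lt hlt)
      have a3 : (vs (univ.image l)).card ≤ m :=
        card_image_le.trans (card_image_le.trans (by simp))
      omega
    refine comb T' 0 b (fun _ _ => Nat.zero_le _) (fun j hj hj1 => ?_)
    obtain ⟨t, ht, a1, a2, a3⟩ := ie T' (powerset univ) 1 (by simp) b (by simpa using e.symm) j hj
    have b1 := vs_le (t.biUnion T')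
    have b2 := y_mono b hj
    have b3 : y b (0 + 1) ≤ y b j := y_mono b hj1
    have b4 := y_step b 0
    refine ⟨t, nonempty_iff_ne_empty.2 ?_, a1, ?_, ?_⟩
    · rintro rfl
      simp only [f, vs, biUnion_empty, image_empty, card_empty] at a2
      omega
    all_goals unfold f at *; omega

theorem result :
    (∀ b : ℕ, ∃ k, 0 < k ∧ bl k = b + 1 ∧ ∀ m, HasF k m → b ≤ m ^ 2) ∧
    ∀ p : Polynomial ℝ, ∃ k, 0 < k ∧ ∀ m, HasF k m → p.eval (Real.logb 2 (bl k)) < m := by
  refine ⟨fun b => ⟨K b b, (K_spec b b).1, (K_spec b b).2.1, lower b⟩, fun p => ?_⟩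
  have h := (p.comp (Polynomial.C (2 / Real.log 2) * Polynomial.X)).tendsto_div_exp_atTop
  have h2 : Filter.Tendsto (fun a : ℕ => Real.log ((a : ℝ) + 1)) Filter.atTop Filter.atTop :=
    Real.tendsto_log_atTop.comp (Filter.tendsto_atTop_add_const_right _ _ tendsto_natCast_atTop_atTop)
  obtain ⟨a, ha, ha1⟩ := (((h.comp h2).eventually (gt_mem_nhds (show (0 : ℝ) < 1 / 2 by norm_num))).and
    (Filter.eventually_ge_atTop 1)).exists
  refine ⟨K (a ^ 2 + 2 * a) (a ^ 2 + 2 * a), (K_spec _ _).1, fun m hm => ?_⟩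
  have h3 := lower _ m hm
  have h4 : a < m := by nlinarith
  have h5 : (a : ℝ) + 1 ≤ m := by exact_mod_cast h4
  have hp : (0 : ℝ) < a + 1 := by positivity
  simp only [Function.comp, Polynomial.eval_comp, Polynomial.eval_mul, Polynomial.eval_C,
    Polynomial.eval_X, Real.exp_log hp] at ha
  rw [div_lt_iff₀ hp] at ha
  rw [(K_spec _ _).2.1, show ((a ^ 2 + 2 * a + 1 : ℕ) : ℝ) = (a + 1) ^ 2 by push_cast; ring,
    Real.logb, Real.log_pow, show ((2 : ℕ) : ℝ) * Real.log (a + 1) / Real.log 2 =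
      2 / Real.log 2 * Real.log (a + 1) by push_cast; ring]
  linarith

end Pool.Agent.Results.MP_94c5d9_co.Sqrt
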